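import Mathlib

/-!
A C*-algebra with an approximate identity of projections but no increasing one: the algebra.
-/

set_option autoImplicit false

noncomputable section

open Filter Topology
open scoped Classical ComplexOrder

namespace Pool.Agent.Y74.IP

/-- The index set: a set of cardinality `2 ^ (2 ^ ℵ₀) ≥ ℵ₂`. -/
abbrev T : Type := Set (Set ℕ)

/-- The base points. -/
abbrev S : Type := T × T × ℕ

/-- The fibre. -/
abbrev B : Type := CStarMatrix (Fin 2) (Fin 2) ℂ

/-- The bounded families. -/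
abbrev L : Type := lp (fun _ : S => B) ⊤

instance : NonUnitalCStarAlgebra L := inferInstance

/-- The projection onto the line spanned by `(1, t)`. -/
def R (t : ℝ) : B :=
  CStarMatrix.ofMatrix !![((1 / (1 + t ^ 2) : ℝ) : ℂ), ((t / (1 + t ^ 2) : ℝ) : ℂ);
    ((t / (1 + t ^ 2) : ℝ) : ℂ), ((t ^ 2 / (1 + t ^ 2) : ℝ) : ℂ)]

lemma R_idem (t : ℝ) : R t * R t = R t := by
  have h : (1 + t ^ 2 : ℝ) ≠ 0 := by positivity
  ext i j
  rw [CStarMatrix.mul_apply, Fin.sum_univ_two]
  fin_cases i <;> fin_cases j <;> simp [R] <;> norm_cast <;> field_simp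

lemma R_star (t : ℝ) : star (R t) = R t := by
  ext i j
  rw [CStarMatrix.star_apply]
  fin_cases i <;> fin_cases j <;> simp [R]

lemma R_ne {t : ℝ} (ht : t ≠ 0) : R t * R 0 ≠ R t := by
  intro h
  have h2 : (1 + t ^ 2 : ℝ) ≠ 0 := by positivity
  have h1 : (R t * R 0) 0 1 = R t 0 1 := by rw [h]
  rw [CStarMatrix.mul_apply, Fin.sum_univ_two] at h1
  have h3 : R 0 0 1 = 0 := by simp [R]
  have h4 : R 0 1 1 = 0 := by simp [R]
  have h5 : R t 0 1 = ((t / (1 + t ^ 2) : ℝ) : ℂ) := by simp [R]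
  rw [h3, h4, h5, mul_zero, mul_zero, add_zero] at h1
  have h6 : t / (1 + t ^ 2) = 0 := by exact_mod_cast h1.symm
  rw [div_eq_zero_iff] at h6
  tauto

lemma norm_proj {A : Type*} [NonUnitalCStarAlgebra A] {x : A} (h1 : x * x = x) (h2 : star x = x) :
    ‖x‖ = 0 ∨ ‖x‖ = 1 := by
  have h3 : ‖x‖ = ‖x‖ * ‖x‖ := by
    have h4 := CStarRing.norm_star_mul_self (x := x)
    rwa [h2, h1] at h4
  rcases eq_or_ne ‖x‖ 0 with h | h
  · exact Or.inl h
  · right
    field_simp at h3
    linarith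

lemma norm_proj_le {A : Type*} [NonUnitalCStarAlgebra A] {x : A} (h1 : x * x = x)
    (h2 : star x = x) : ‖x‖ ≤ 1 := by
  rcases norm_proj h1 h2 with h | h <;> simp [h]

lemma proj_eq_zero {A : Type*} [NonUnitalCStarAlgebra A] {x : A} (h1 : x * x = x)
    (h2 : star x = x) (h3 : ‖x‖ < 1) : x = 0 := by
  rcases norm_proj h1 h2 with h | h
  · exact norm_eq_zero.1 h
  · linarith

/-- `1 / (n + 1)` -/
def tn (n : ℕ) : ℝ := 1 / ((n : ℝ) + 1)

lemma tn_ne (n : ℕ) : tn n ≠ 0 := by unfold tn; positivity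

lemma tn_tendsto : Tendsto tn atTop (𝓝 0) := tendsto_one_div_add_atTop_nhds_zero_nat

/-- matrix units -/
def e (i j : Fin 2) : B := CStarMatrix.ofMatrix (Matrix.single i j (1 : ℂ))

lemma R_eq (t : ℝ) : R t = (1 / (1 + t ^ 2) : ℝ) • (e 0 0 + t • e 0 1 + t • e 1 0 + t ^ 2 • e 1 1) := by
  ext i j
  fin_cases i <;> fin_cases j <;> simp [R, e] <;> ring

lemma R_cont : Continuous R := by
  have h : R = fun t => (1 / (1 + t ^ 2) : ℝ) • (e 0 0 + t • e 0 1 + t • e 1 0 + t ^ 2 • e 1 1) :=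
    funext R_eq
  rw [h]
  have h1 : Continuous fun t : ℝ => 1 / (1 + t ^ 2) := by
    refine continuous_const.div (by fun_prop) fun t => by positivity
  exact h1.smul (by fun_prop)

/-- the error between the two kinds of projections -/
def dl (n : ℕ) : ℝ := max ‖R (tn n) - R 0 * R (tn n) * R 0‖ ‖R 0 - R (tn n) * R 0 * R (tn n)‖

lemma dl_tendsto : Tendsto dl atTop (𝓝 0) := by
  have h1 : Tendsto (fun n => R (tn n)) atTop (𝓝 (R 0)) := (R_cont.tendsto 0).comp tn_tendsto
  have h2 : Tendsto (fun n => ‖R (tn n) - R 0 * R (tn n) * R 0‖) atTop (𝓝 0) := by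
    have h := (h1.sub (((tendsto_const_nhds (x := R 0)).mul h1).mul
      (tendsto_const_nhds (x := R 0)))).norm
    simpa [R_idem] using h
  have h3 : Tendsto (fun n => ‖R 0 - R (tn n) * R 0 * R (tn n)‖) atTop (𝓝 0) := by
    have h := ((tendsto_const_nhds (x := R 0)).sub ((h1.mul
      (tendsto_const_nhds (x := R 0))).mul h1)).norm
    simpa [R_idem] using h
  have h4 := h2.max h3
  rw [max_self] at h4
  exact h4

end Pool.Agent.Y74.IP
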