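import Mathlib
import Pool.Agent.Y74.IP.Base

/-!
A C*-algebra with an approximate identity of projections but no increasing one: the algebra.
-/

set_option autoImplicit false

noncomputable section

open Filter Topology
open scoped Classical ComplexOrder

namespace Pool.Agent.Y74.IP

/-- the base points attached to `α` -/
def Am (α : T) : Set S := {s | s.1 = α ∨ s.2.1 = α}

/-- the basic projections -/
def pf (F : Finset T) (G : Finset S) (s : S) : B :=
  if s ∈ G then 1 else if s.1 ∈ F then R 0 else if s.2.1 ∈ F then R (tn s.2.2) else 0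

lemma pf_idem (F : Finset T) (G : Finset S) (s : S) : pf F G s * pf F G s = pf F G s := by
  unfold pf
  split_ifs <;> simp [R_idem]

lemma pf_star (F : Finset T) (G : Finset S) (s : S) : star (pf F G s) = pf F G s := by
  unfold pf
  split_ifs <;> simp [R_star]

lemma pf_norm (F : Finset T) (G : Finset S) (s : S) : ‖pf F G s‖ ≤ 1 :=
  norm_proj_le (pf_idem F G s) (pf_star F G s)

/-- the basic projections -/
def pL (F : Finset T) (G : Finset S) : L :=
  ⟨pf F G, memℓp_infty ⟨1, by rintro _ ⟨s, rfl⟩; exact pf_norm F G s⟩⟩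

@[simp] lemma pL_apply (F : Finset T) (G : Finset S) (s : S) : pL F G s = pf F G s := rfl

/-- the projection attached to `α` -/
abbrev P (α : T) (s : S) : B := pf {α} ∅ s

/-- the defect of `x` relative to a projection -/
def df (p x : B) : B := x - p * x * p

lemma df_add (p x y : B) : df p (x + y) = df p x + df p y := by
  unfold df; noncomm_ring

lemma df_smul (c : ℂ) (p x : B) : df p (c • x) = c • df p x := by
  unfold df; rw [mul_smul_comm, smul_mul_assoc, smul_sub]

lemma df_star {p : B} (hp : star p = p) (x : B) : df p (star x) = star (df p x) := by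
  unfold df
  rw [star_sub, star_mul, star_mul, hp, mul_assoc]

lemma df_norm_le {p : B} (hp : ‖p‖ ≤ 1) (x : B) : ‖df p x‖ ≤ 2 * ‖x‖ := by
  unfold df
  have h : ‖p * x * p‖ ≤ ‖x‖ := by
    calc ‖p * x * p‖ ≤ ‖p‖ * ‖x‖ * ‖p‖ := by
          refine (norm_mul_le _ _).trans ?_
          exact mul_le_mul_of_nonneg_right (norm_mul_le _ _) (norm_nonneg _)
      _ ≤ 1 * ‖x‖ * 1 := by gcongr
      _ = ‖x‖ := by ring
  linarith [norm_sub_le x (p * x * p)]

lemma df_sub (p x y : B) : df p (x - y) = df p x - df p y := by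
  unfold df; noncomm_ring

lemma df_mul {p : B} (hp : p * p = p) (hp1 : ‖p‖ ≤ 1) (x y : B) :
    ‖df p (x * y)‖ ≤ 2 * (‖df p x‖ * ‖y‖ + ‖x‖ * ‖df p y‖) := by
  have h1 : df p (x * y) = df p (df p x * y + (p * x * p) * df p y) := by
    have h2 : p * (p * x * p * (p * y * p)) * p = p * x * p * (p * y * p) := by
      have h3 : p * (p * x * p * (p * y * p)) * p = (p * p) * x * p * p * y * (p * p) := by
        noncomm_ring
      have h4 : p * x * p * (p * y * p) = p * x * p * p * y * p := by noncomm_ring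
      rw [h3, h4, hp]
    have h5 : x * y = (df p x * y + (p * x * p) * df p y) + p * x * p * (p * y * p) := by
      unfold df; noncomm_ring
    rw [h5, df_add]
    have h6 : df p (p * x * p * (p * y * p)) = 0 := by
      unfold df; rw [h2, sub_self]
    rw [h6, add_zero]
  rw [h1]
  refine (df_norm_le hp1 _).trans ?_
  have h2 : ‖p * x * p‖ ≤ ‖x‖ := by
    calc ‖p * x * p‖ ≤ ‖p‖ * ‖x‖ * ‖p‖ := by
          refine (norm_mul_le _ _).trans ?_
          exact mul_le_mul_of_nonneg_right (norm_mul_le _ _) (norm_nonneg _)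
      _ ≤ 1 * ‖x‖ * 1 := by gcongr
      _ = ‖x‖ := by ring
  have h3 : ‖df p x * y + (p * x * p) * df p y‖ ≤ ‖df p x‖ * ‖y‖ + ‖x‖ * ‖df p y‖ := by
    refine (norm_add_le _ _).trans (add_le_add (norm_mul_le _ _) ?_)
    exact (norm_mul_le _ _).trans (mul_le_mul_of_nonneg_right h2 (norm_nonneg _))
  linarith

/-- the filter at infinity along the base points of `α` -/
def fl (α : T) : Filter S := cofinite ⊓ 𝓟 (Am α)

/-- the filter at infinity -/
def fi : Filter S :=
  cofinite ⊓ (comap (fun s : S => s.1) cofinite ⊓ comap (fun s : S => s.2.1) cofinite)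

/-- the conditions defining the algebra -/
def Cd (a : L) : Prop :=
  (∀ α, Tendsto (fun s => ‖df (P α s) (a s)‖) (fl α) (𝓝 0)) ∧ Tendsto (fun s => ‖a s‖) fi (𝓝 0)

lemma nrm (a : L) (s : S) : ‖a s‖ ≤ ‖a‖ := lp.norm_apply_le_norm (by simp) a s

lemma closed_aux {ι : Type*} (l : Filter ι) (f : L → ι → ℝ) (C : ℝ) (hC : 0 ≤ C)
    (h : ∀ a b i, f a i ≤ f b i + C * ‖a - b‖) (h0 : ∀ a i, 0 ≤ f a i) :
    IsClosed {a : L | Tendsto (f a) l (𝓝 0)} := by
  refine isClosed_of_closure_subset fun a ha => ?_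
  rw [Set.mem_ofPred_eq, Metric.tendsto_nhds]
  intro ε hε
  rw [Metric.mem_closure_iff] at ha
  obtain ⟨b, hb, hab⟩ := ha (ε / (2 * (C + 1))) (by positivity)
  rw [Set.mem_ofPred_eq, Metric.tendsto_nhds] at hb
  filter_upwards [hb (ε / 2) (by positivity)] with i hi
  rw [Real.dist_eq, sub_zero, abs_of_nonneg (h0 _ _)] at hi ⊢
  rw [dist_eq_norm] at hab
  have h1 : C * ‖a - b‖ ≤ ε / 2 := by
    calc C * ‖a - b‖ ≤ (C + 1) * (ε / (2 * (C + 1))) := by
          refine mul_le_mul (by linarith) hab.le (norm_nonneg _) (by positivity)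
      _ = ε / 2 := by field_simp
  linarith [h a b i]

lemma Cd_closed : IsClosed {a : L | Cd a} := by
  have h1 : {a : L | Cd a} = (⋂ α, {a : L | Tendsto (fun s => ‖df (P α s) (a s)‖) (fl α) (𝓝 0)}) ∩
      {a : L | Tendsto (fun s => ‖a s‖) fi (𝓝 0)} := by
    ext a
    simp [Cd]
  rw [h1]
  refine IsClosed.inter (isClosed_iInter fun α => ?_) ?_
  · refine closed_aux (fl α) (fun a s => ‖df (P α s) (a s)‖) 2 (by norm_num) ?_
      (fun _ _ => norm_nonneg _)
    intro a b s
    have h2 : df (P α s) (a s) = df (P α s) (b s) + df (P α s) ((a - b : L) s) := by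
      rw [← df_add]; congr 1; simp
    rw [h2]
    refine (norm_add_le _ _).trans ?_
    have h3 := df_norm_le (pf_norm {α} ∅ s) ((a - b : L) s)
    have h4 := nrm (a - b) s
    linarith
  · refine closed_aux fi (fun a s => ‖a s‖) 1 (by norm_num) ?_ (fun _ _ => norm_nonneg _)
    intro a b s
    have h2 : a s = b s + (a - b : L) s := by simp
    rw [h2]
    refine (norm_add_le _ _).trans ?_
    have h4 := nrm (a - b) s
    simp only [lp.coeFn_sub, Pi.sub_apply] at h4 ⊢
    linarith

lemma Cd_add {a b : L} (ha : Cd a) (hb : Cd b) : Cd (a + b) := by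
  refine ⟨fun α => ?_, ?_⟩
  · have h := (ha.1 α).add (hb.1 α)
    rw [add_zero] at h
    refine squeeze_zero (fun _ => norm_nonneg _) (fun s => ?_) h
    rw [lp.coeFn_add, Pi.add_apply, df_add]
    exact norm_add_le _ _
  · have h := ha.2.add hb.2
    rw [add_zero] at h
    refine squeeze_zero (fun _ => norm_nonneg _) (fun s => ?_) h
    rw [lp.coeFn_add, Pi.add_apply]
    exact norm_add_le _ _

lemma Cd_zero : Cd 0 := by
  refine ⟨fun α => ?_, ?_⟩
  · have h : (fun s => ‖df (P α s) ((0 : L) s)‖) = fun _ => (0 : ℝ) := by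
      funext s; simp [df]
    rw [h]
    exact tendsto_const_nhds
  · have h : (fun s => ‖(0 : L) s‖) = fun _ => (0 : ℝ) := by
      funext s; simp
    rw [h]
    exact tendsto_const_nhds

lemma Cd_smul (c : ℂ) {a : L} (ha : Cd a) : Cd (c • a) := by
  refine ⟨fun α => ?_, ?_⟩
  · have h := (ha.1 α).const_mul ‖c‖
    rw [mul_zero] at h
    refine squeeze_zero (fun _ => norm_nonneg _) (fun s => ?_) h
    rw [lp.coeFn_smul, Pi.smul_apply, df_smul, norm_smul]
  · have h := ha.2.const_mul ‖c‖
    rw [mul_zero] at h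
    refine squeeze_zero (fun _ => norm_nonneg _) (fun s => ?_) h
    rw [lp.coeFn_smul, Pi.smul_apply, norm_smul]

lemma Cd_star {a : L} (ha : Cd a) : Cd (star a) := by
  refine ⟨fun α => ?_, ?_⟩
  · refine squeeze_zero (fun _ => norm_nonneg _) (fun s => ?_) (ha.1 α)
    have h : df (P α s) ((star a : L) s) = star (df (P α s) (a s)) :=
      df_star (pf_star _ _ _) (a s)
    rw [h]
    exact (norm_star (df (P α s) (a s))).le
  · refine squeeze_zero (fun _ => norm_nonneg _) (fun s => ?_) ha.2
    exact (norm_star (a s)).le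

lemma Cd_mul {a b : L} (ha : Cd a) (hb : Cd b) : Cd (a * b) := by
  refine ⟨fun α => ?_, ?_⟩
  · have h := (((ha.1 α).mul_const ‖b‖).add ((hb.1 α).const_mul ‖a‖)).const_mul 2
    rw [zero_mul, mul_zero, add_zero, mul_zero] at h
    refine squeeze_zero (fun _ => norm_nonneg _) (fun s => ?_) h
    rw [lp.infty_coeFn_mul, Pi.mul_apply]
    refine (df_mul (pf_idem _ _ _) (pf_norm _ _ _) _ _).trans ?_
    have h1 := nrm a s
    have h2 := nrm b s
    gcongr
  · have h := (ha.2).mul_const ‖b‖
    rw [zero_mul] at h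
    refine squeeze_zero (fun _ => norm_nonneg _) (fun s => ?_) h
    rw [lp.infty_coeFn_mul, Pi.mul_apply]
    refine (norm_mul_le _ _).trans ?_
    have h2 := nrm b s
    gcongr

/-- **The C*-algebra.** -/
def Al : NonUnitalStarSubalgebra ℂ L where
  carrier := {a | Cd a}
  add_mem' := Cd_add
  zero_mem' := Cd_zero
  mul_mem' := Cd_mul
  smul_mem' c _ h := Cd_smul c h
  star_mem' := Cd_star

instance : Fact (IsClosed (Al : Set L)) := ⟨Cd_closed⟩

instance : IsClosed (Al : Set L) := Cd_closed

instance : NonUnitalCStarAlgebra Al := inferInstance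

end Pool.Agent.Y74.IP
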