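import Mathlib
import Pool.Agent.Y74.IP.Alg

/-!
The basic projections belong to the algebra and form an approximate identity.
-/

set_option autoImplicit false

noncomputable section

open Filter Topology
open scoped Classical ComplexOrder

namespace Pool.Agent.Y74.IP

lemma dl_nonneg (n : ℕ) : 0 ≤ dl n := le_max_of_le_left (norm_nonneg _)

lemma P_left (α : T) (s : S) (h : s.1 = α) : P α s = R 0 := by
  simp [P, pf, h]

lemma P_right (α : T) (s : S) (h : s.1 ≠ α) (h2 : s.2.1 = α) : P α s = R (tn s.2.2) := by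
  simp [P, pf, h, h2]

/-- Membership in the algebra. -/
lemma pL_Cd (F : Finset T) (G : Finset S) : Cd (pL F G) := by
  refine ⟨fun α => ?_, ?_⟩
  · rw [Metric.tendsto_nhds]
    intro ε hε
    have h1 := (Metric.tendsto_atTop.1 dl_tendsto) ε hε
    obtain ⟨N, hN⟩ := h1
    unfold fl
    rw [eventually_inf_principal, eventually_cofinite]
    refine Set.Finite.subset ((G ∪ (insert α F) ×ˢ ((insert α F) ×ˢ Finset.range N)).finite_toSet)
      fun s hs => ?_
    simp only [Set.mem_ofPred_eq] at hs
    push Not at hs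
    obtain ⟨hsA, hs⟩ := hs
    rw [Real.dist_eq, sub_zero, abs_of_nonneg (norm_nonneg _)] at hs
    simp only [Finset.coe_union, Set.mem_union, Finset.mem_coe, Finset.mem_product,
      Finset.mem_insert, Finset.mem_range]
    by_contra hcon
    push Not at hcon
    obtain ⟨hG, hcon⟩ := hcon
    obtain ⟨x, y, n⟩ := s
    simp only [Am, Set.mem_ofPred_eq] at hsA
    simp only at hcon hs
    -- the value of the defect
    have hd : ∀ m, N ≤ m → dl m < ε := fun m hm => by
      have := hN m hm
      rwa [Real.dist_eq, sub_zero, abs_of_nonneg (dl_nonneg m)] at this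
    have key : ‖df (P α (x, y, n)) (pf F G (x, y, n))‖ < ε := by
      by_cases hx : x = α
      · rw [P_left α _ hx]
        unfold pf
        rw [if_neg hG]
        by_cases hxF : x ∈ F
        · simp [hxF, df, R_idem, hε]
        · by_cases hyF : y ∈ F
          · simp only [hxF, hyF, if_true, if_false]
            have hn : N ≤ n := hcon (Or.inl hx) (Or.inr hyF)
            refine lt_of_le_of_lt ?_ (hd n hn)
            exact le_max_left _ _
          · simp [hxF, hyF, df, hε]
      · have hy : y = α := by tauto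
        rw [P_right α _ hx hy]
        unfold pf
        rw [if_neg hG]
        by_cases hxF : x ∈ F
        · simp only [hxF, if_true]
          have hn : N ≤ n := hcon (Or.inr hxF) (Or.inl hy)
          refine lt_of_le_of_lt ?_ (hd n hn)
          exact le_max_right _ _
        · by_cases hyF : y ∈ F
          · simp [hxF, hyF, df, R_idem, hε]
          · simp [hxF, hyF, df, hε]
    exact absurd key (not_lt.2 hs)
  · have h : ∀ᶠ s : S in fi, ‖(pL F G : L) s‖ = 0 := by
      unfold fi
      have h1 : ∀ᶠ s : S in cofinite, s ∉ G := by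
        rw [eventually_cofinite]
        exact G.finite_toSet.subset fun s hs => by simpa using hs
      have h2 : ∀ᶠ s : S in comap (fun s : S => s.1) cofinite, s.1 ∉ F := by
        refine eventually_comap.2 ?_
        have : ∀ᶠ x : T in cofinite, x ∉ F := by
          rw [eventually_cofinite]
          exact F.finite_toSet.subset fun s hs => by simpa using hs
        filter_upwards [this] with x hx s hs
        rwa [hs]
      have h3 : ∀ᶠ s : S in comap (fun s : S => s.2.1) cofinite, s.2.1 ∉ F := by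
        refine eventually_comap.2 ?_
        have : ∀ᶠ x : T in cofinite, x ∉ F := by
          rw [eventually_cofinite]
          exact F.finite_toSet.subset fun s hs => by simpa using hs
        filter_upwards [this] with x hx s hs
        rwa [hs]
      filter_upwards [h1.filter_mono inf_le_left,
        h2.filter_mono (inf_le_right.trans inf_le_left),
        h3.filter_mono (inf_le_right.trans inf_le_right)] with s h5 h6 h7
      simp [pf, h5, h6, h7]
    exact tendsto_nhds_of_eventually_eq h

/-- The basic projection as an element of the algebra. -/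
def pA (F : Finset T) (G : Finset S) : Al := ⟨pL F G, pL_Cd F G⟩

lemma fl_ev {α : T} {p : S → Prop} (h : ∀ᶠ s in fl α, p s) :
    ∃ G : Finset S, ∀ s ∈ Am α, s ∉ G → p s := by
  unfold fl at h
  rw [eventually_inf_principal, eventually_cofinite] at h
  refine ⟨h.toFinset, fun s hs hG => ?_⟩
  by_contra hp
  exact hG (by simp [hs, hp])

lemma fi_ev {p : S → Prop} (h : ∀ᶠ s in fi, p s) :
    ∃ (F : Finset T) (G : Finset S), ∀ s, s ∉ G → s.1 ∉ F → s.2.1 ∉ F → p s := by
  unfold fi at h
  obtain ⟨t1, ht1, t2, ht2, h12⟩ := mem_inf_iff_superset.1 h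
  obtain ⟨t3, ht3, t4, ht4, h34⟩ := mem_inf_iff_superset.1 ht2
  obtain ⟨u3, hu3, h3⟩ := mem_comap.1 ht3
  obtain ⟨u4, hu4, h4⟩ := mem_comap.1 ht4
  rw [mem_cofinite] at ht1 hu3 hu4
  refine ⟨hu3.toFinset ∪ hu4.toFinset, ht1.toFinset, fun s hG h5 h6 => ?_⟩
  refine h12 ⟨?_, h34 ⟨h3 ?_, h4 ?_⟩⟩
  · by_contra hc
    exact hG (by simpa using hc)
  · by_contra hc
    exact h5 (by
      rw [Finset.mem_union]; left
      simpa using hc)
  · by_contra hc
    exact h6 (by
      rw [Finset.mem_union]; right
      simpa using hc)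

lemma left_defect {p : B} (hp : p * p = p) (hp1 : ‖p‖ ≤ 1) (x : B) :
    ‖x - p * x‖ ≤ 2 * ‖df p x‖ := by
  have h : x - p * x = df p x - p * df p x := by
    unfold df
    have h2 : p * (x - p * x * p) = p * x - (p * p) * x * p := by noncomm_ring
    rw [h2, hp]
    abel
  rw [h]
  refine (norm_sub_le _ _).trans ?_
  have h3 : ‖p * df p x‖ ≤ 1 * ‖df p x‖ :=
    (norm_mul_le _ _).trans (mul_le_mul_of_nonneg_right hp1 (norm_nonneg _))
  linarith

/-- For every element there is a finite set `F₀` such that for all finite `F ⊇ F₀` there is a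
finite set `G₀` such that for all finite `G ⊇ G₀` the projection is a good left unit. -/
lemma approx (a : L) (ha : Cd a) (ε : ℝ) (hε : 0 < ε) : ∃ F₀ : Finset T, ∀ F, F₀ ⊆ F →
    ∃ G₀ : Finset S, ∀ G, G₀ ⊆ G → ‖a - pL F G * a‖ ≤ ε := by
  have h2 := ha.2
  rw [Metric.tendsto_nhds] at h2
  obtain ⟨F₀, G₁, hFG⟩ := fi_ev (h2 ε hε)
  have h4 : ∀ α : T, ∃ G : Finset S, ∀ s ∈ Am α, s ∉ G → dist ‖df (P α s) (a s)‖ 0 < ε / 2 :=
    fun α => fl_ev ((Metric.tendsto_nhds.1 (ha.1 α)) (ε / 2) (by positivity))
  choose Gf hGf using h4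
  refine ⟨F₀, fun F hF => ⟨G₁ ∪ F.biUnion Gf, fun G hG => ?_⟩⟩
  refine lp.norm_le_of_forall_le hε.le fun s => ?_
  have h5 : (a - pL F G * a : L) s = a s - pf F G s * a s := by
    rw [lp.coeFn_sub, Pi.sub_apply, lp.infty_coeFn_mul, Pi.mul_apply, pL_apply]
  rw [h5]
  by_cases hs : s ∈ G
  · have : pf F G s = 1 := by simp [pf, hs]
    rw [this, one_mul, sub_self, norm_zero]
    exact hε.le
  have hs1 : s ∉ G₁ := fun h => hs (hG (Finset.mem_union_left _ h))
  have hs2 : ∀ α ∈ F, s ∉ Gf α := fun α hα h =>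
    hs (hG (Finset.mem_union_right _ (Finset.mem_biUnion.2 ⟨α, hα, h⟩)))
  have key : ∀ α ∈ F, s ∈ Am α → ‖a s - P α s * a s‖ ≤ ε := by
    intro α hα hsA
    have h6 := hGf α s hsA (hs2 α hα)
    rw [Real.dist_eq, sub_zero, abs_of_nonneg (norm_nonneg _)] at h6
    refine (left_defect (pf_idem _ _ _) (pf_norm _ _ _) _).trans ?_
    linarith
  by_cases h1 : s.1 ∈ F
  · have : pf F G s = P s.1 s := by
      rw [P_left s.1 s rfl]
      simp [pf, hs, h1]
    rw [this]
    exact key _ h1 (Or.inl rfl)
  · by_cases h2 : s.2.1 ∈ F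
    · have h7 : s.1 ≠ s.2.1 := fun h => h1 (h ▸ h2)
      have : pf F G s = P s.2.1 s := by
        rw [P_right s.2.1 s h7 rfl]
        simp [pf, hs, h1, h2]
      rw [this]
      exact key _ h2 (Or.inr rfl)
    · have : pf F G s = 0 := by simp [pf, hs, h1, h2]
      rw [this, zero_mul, sub_zero]
      have h8 := hFG s hs1 (fun h => h1 (hF h)) (fun h => h2 (hF h))
      rw [Real.dist_eq, sub_zero, abs_of_nonneg (norm_nonneg _)] at h8
      exact h8.le

/-- Simultaneous left units for finitely many elements. -/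
lemma approx_fin (Φ : Finset Al) (ε : ℝ) (hε : 0 < ε) :
    ∃ (F : Finset T) (G : Finset S), ∀ a ∈ Φ, ‖a - pA F G * a‖ ≤ ε := by
  have h := fun a : Al => approx a.1 a.2 ε hε
  choose F₀ hF using h
  have h2 := fun a : Al => hF a (Φ.biUnion F₀)
  have h3 : ∀ a : Al, ∃ G₀ : Finset S, a ∈ Φ → ∀ G, G₀ ⊆ G →
      ‖(a : L) - pL (Φ.biUnion F₀) G * a‖ ≤ ε := by
    intro a
    by_cases ha : a ∈ Φ
    · obtain ⟨G₀, hG⟩ := h2 a (Finset.subset_biUnion_of_mem F₀ ha)
      exact ⟨G₀, fun _ => hG⟩
    · exact ⟨∅, fun h => absurd h ha⟩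
  choose G₀ hG using h3
  refine ⟨Φ.biUnion F₀, Φ.biUnion G₀, fun a ha => ?_⟩
  have h4 := hG a ha (Φ.biUnion G₀) (Finset.subset_biUnion_of_mem G₀ ha)
  exact h4

lemma pA_idem (F : Finset T) (G : Finset S) : pA F G * pA F G = pA F G := by
  apply Subtype.ext
  apply lp.ext
  funext s
  change (pL F G * pL F G : L) s = pL F G s
  rw [lp.infty_coeFn_mul, Pi.mul_apply, pL_apply, pf_idem]

lemma pA_star (F : Finset T) (G : Finset S) : star (pA F G) = pA F G := by
  apply Subtype.ext
  apply lp.ext
  funext s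
  change star (pL F G s) = pL F G s
  rw [pL_apply, pf_star]

/-- The algebra has an approximate identity of projections. -/
theorem has_approx : ∃ (Λ : Type) (_ : Preorder Λ) (_ : IsDirected Λ (· ≤ ·)) (_ : Nonempty Λ)
    (e : Λ → Al), (∀ i, IsIdempotentElem (e i) ∧ IsSelfAdjoint (e i)) ∧
      ∀ a : Al, Tendsto (fun i => e i * a) atTop (𝓝 a) ∧
        Tendsto (fun i => a * e i) atTop (𝓝 a) := by
  have h := fun (i : Finset Al × ℕ) => approx_fin (i.1 ∪ i.1.image star) (tn i.2)
    (by unfold tn; positivity)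
  choose F G hFG using h
  refine ⟨Finset Al × ℕ, inferInstance, inferInstance, inferInstance,
    fun i => pA (F i) (G i), fun i => ⟨pA_idem _ _, pA_star _ _⟩, fun a => ?_⟩
  have ht : ∀ b : Al, ∀ ε : ℝ, 0 < ε → ∀ᶠ i : Finset Al × ℕ in atTop,
      tn i.2 < ε ∧ a ∈ i.1 := by
    intro b ε hε
    obtain ⟨N, hN⟩ := (Metric.tendsto_atTop.1 tn_tendsto) ε hε
    filter_upwards [eventually_ge_atTop (({a} : Finset Al), N)] with i hi
    refine ⟨?_, ?_⟩
    · have h2 := hN i.2 hi.2
      rw [Real.dist_eq, sub_zero] at h2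
      exact (le_abs_self _).trans_lt h2
    · exact hi.1 (Finset.mem_singleton_self a)
  constructor
  · rw [Metric.tendsto_nhds]
    intro ε hε
    filter_upwards [ht a ε hε] with i hi
    rw [dist_comm, dist_eq_norm]
    exact (hFG i a (Finset.mem_union_left _ hi.2)).trans_lt hi.1
  · rw [Metric.tendsto_nhds]
    intro ε hε
    filter_upwards [ht a ε hε] with i hi
    rw [dist_comm, dist_eq_norm]
    have h3 := hFG i (star a) (Finset.mem_union_right _ (Finset.mem_image_of_mem star hi.2))
    have h4 : star (star a - pA (F i) (G i) * star a) = a - a * pA (F i) (G i) := by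
      rw [star_sub, star_mul, star_star, pA_star]
    have h5 : ‖a - a * pA (F i) (G i)‖ = ‖star a - pA (F i) (G i) * star a‖ := by
      rw [← h4, norm_star]
    rw [h5]
    exact h3.trans_lt hi.1

end Pool.Agent.Y74.IP
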