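import Mathlib
import Pool.Agent.Y74.IP.Proj

/-!
The algebra has no increasing approximate identity of projections.
-/

set_option autoImplicit false

noncomputable section

open Filter Topology Cardinal
open scoped Classical ComplexOrder

namespace Pool.Agent.Y74.IP

/-- A set mapping with countable values on a set of cardinality `2 ^ (2 ^ ℵ₀)` has a free pair. -/
lemma free_pair (C : T → Set T) (hC : ∀ α, (C α).Countable) :
    ∃ α β, α ≠ β ∧ β ∉ C α ∧ α ∉ C β := by
  have hc : #(Set ℕ) = 𝔠 := by simp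
  have hcard : #(⋃ x : Set ℕ, (C {x} ∪ {{x}} : Set T)) ≤ #(Set ℕ) := by
    refine (Cardinal.mk_iUnion_le _).trans ?_
    have h1 : (⨆ x : Set ℕ, #(C {x} ∪ {{x}} : Set T)) ≤ ℵ₀ := by
      refine ciSup_le' fun x => ?_
      have h2 : (C {x} ∪ {{x}} : Set T).Countable := (hC _).union (Set.countable_singleton _)
      exact h2.le_aleph0
    refine (mul_le_mul' le_rfl h1).trans ?_
    rw [hc, Cardinal.continuum_mul_aleph0]
  have hlt : #(Set ℕ) < #T := by
    rw [Cardinal.mk_set (α := Set ℕ)]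
    exact Cardinal.cantor _
  have hne : (⋃ x : Set ℕ, (C {x} ∪ {{x}} : Set T)) ≠ Set.univ := by
    intro h
    rw [h, Cardinal.mk_univ] at hcard
    exact absurd (hcard.trans_lt hlt) (lt_irrefl _)
  obtain ⟨β, hβ⟩ := (Set.ne_univ_iff_exists_notMem _).1 hne
  rw [Set.mem_iUnion] at hβ
  push Not at hβ
  have hx : ∃ x : Set ℕ, ({x} : T) ∉ C β := by
    by_contra hcon
    push Not at hcon
    have h1 : (Set.range (fun x : Set ℕ => ({x} : T))) ⊆ C β := by
      rintro _ ⟨x, rfl⟩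
      exact hcon x
    have h2 : (Set.range (fun x : Set ℕ => ({x} : T))).Countable := (hC β).mono h1
    have h3 : Countable (Set ℕ) := by
      have h4 : Function.Injective (fun x : Set ℕ => ({x} : T)) := Set.singleton_injective
      haveI : Countable (Set.range (fun x : Set ℕ => ({x} : T))) := h2.to_subtype
      exact (Set.rangeFactorization_injective.2 h4).countable
    have h6 := Cardinal.mk_le_aleph0_iff.2 h3
    rw [hc] at h6
    exact absurd h6 (not_le.2 Cardinal.aleph0_lt_continuum)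
  obtain ⟨x, hx⟩ := hx
  refine ⟨{x}, β, ?_, ?_, hx⟩
  · intro h
    exact hβ x (Or.inr h.symm)
  · intro h
    exact hβ x (Or.inl h)

lemma exact_countable {a : L} (ha : Cd a) (α : T) :
    {s | s ∈ Am α ∧ df (P α s) (a s) ≠ 0}.Countable := by
  have h1 : ∀ k : ℕ, ∃ G : Finset S, ∀ s ∈ Am α, s ∉ G → dist ‖df (P α s) (a s)‖ 0 < tn k :=
    fun k => fl_ev ((Metric.tendsto_nhds.1 (ha.1 α)) (tn k) (by unfold tn; positivity))
  choose G hG using h1
  refine Set.Countable.mono (s₂ := ⋃ k, (G k : Set S)) ?_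
    (Set.countable_iUnion fun k => (G k).countable_toSet)
  rintro s ⟨hs, hne⟩
  by_contra hcon
  rw [Set.mem_iUnion] at hcon
  push Not at hcon
  have h2 : ∀ k, ‖df (P α s) (a s)‖ < tn k := by
    intro k
    have h3 := hG k s hs (hcon k)
    rwa [Real.dist_eq, sub_zero, abs_of_nonneg (norm_nonneg _)] at h3
  have h4 : ‖df (P α s) (a s)‖ ≤ 0 := ge_of_tendsto' tn_tendsto fun k => (h2 k).le
  exact hne (norm_le_zero_iff.1 h4)

/-- A projection `q` with `q = p q p` and `‖q p - p‖ < 1` equals `p`. -/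
lemma eq_of_df {p q : B} (hp : p * p = p) (hps : star p = p) (hq : q * q = q) (hqs : star q = q)
    (h : df p q = 0) (h1 : ‖q * p - p‖ < 1) : q = p := by
  have h2 : q = p * q * p := sub_eq_zero.1 h
  have h3 : p * q = q := by
    conv_lhs => rw [h2]
    rw [show p * (p * q * p) = (p * p) * q * p by noncomm_ring, hp, ← h2]
  have h4 : q * p = q := by
    conv_lhs => rw [h2]
    rw [show p * q * p * p = p * q * (p * p) by noncomm_ring, hp, ← h2]
  have h5 : (p - q) * (p - q) = p - q := by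
    rw [sub_mul, mul_sub, mul_sub, hp, h3, h4, hq]
    abel
  have h6 : star (p - q) = p - q := by rw [star_sub, hps, hqs]
  have h7 : p - q = 0 := by
    refine proj_eq_zero h5 h6 ?_
    rw [h4] at h1
    rwa [norm_sub_rev]
  exact (sub_eq_zero.1 h7).symm

theorem no_increasing : ¬ ∃ (Λ : Type) (_ : Preorder Λ) (_ : IsDirected Λ (· ≤ ·))
    (_ : Nonempty Λ) (e : Λ → Al), (∀ i, IsIdempotentElem (e i) ∧ IsSelfAdjoint (e i)) ∧
      (∀ i j, i ≤ j → e i * e j = e i) ∧
      ∀ a : Al, Tendsto (fun i => e i * a) atTop (𝓝 a) ∧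
        Tendsto (fun i => a * e i) atTop (𝓝 a) := by
  rintro ⟨Λ, _, _, _, e, hp, hm, ht⟩
  have h1 : ∀ α : T, ∃ i, ‖e i * pA {α} ∅ - pA {α} ∅‖ < 1 := by
    intro α
    have h2 := (Metric.tendsto_nhds.1 (ht (pA {α} ∅)).1) 1 one_pos
    obtain ⟨i, hi⟩ := h2.exists
    exact ⟨i, by rwa [← dist_eq_norm]⟩
  choose f hf using h1
  -- pointwise facts
  have hmul : ∀ (a b : Al) (s : S), ((a * b : Al) : L) s = (a : L) s * (b : L) s := by
    intro a b s
    change ((a : L) * (b : L) : L) s = _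
    rw [lp.infty_coeFn_mul, Pi.mul_apply]
  have hidem : ∀ (i : Λ) (s : S), ((e i : Al) : L) s * ((e i : Al) : L) s = ((e i : Al) : L) s := by
    intro i s
    rw [← hmul, (hp i).1.eq]
  have hstar : ∀ (i : Λ) (s : S), star (((e i : Al) : L) s) = ((e i : Al) : L) s := by
    intro i s
    have h2 : star (e i) = e i := (hp i).2
    have h3 : ((star (e i) : Al) : L) s = star (((e i : Al) : L) s) := rfl
    rw [← h3, h2]
  have hnear : ∀ (α : T) (s : S), ‖((e (f α) : Al) : L) s * P α s - P α s‖ < 1 := by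
    intro α s
    have h2 : ‖((e (f α) * pA {α} ∅ - pA {α} ∅ : Al) : L) s‖ ≤ ‖e (f α) * pA {α} ∅ - pA {α} ∅‖ :=
      nrm _ s
    have h3 : ((e (f α) * pA {α} ∅ - pA {α} ∅ : Al) : L) s =
        ((e (f α) : Al) : L) s * P α s - P α s := by
      change ((e (f α) * pA {α} ∅ : Al) : L) s - (pL {α} ∅ : L) s = _
      rw [hmul]
      rfl
    rw [h3] at h2
    exact h2.trans_lt (hf α)
  have hE : ∀ α, {s | s ∈ Am α ∧ df (P α s) (((e (f α) : Al) : L) s) ≠ 0}.Countable :=
    fun α => exact_countable (e (f α)).2 α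
  have hEq : ∀ α, ∀ s ∈ Am α, s ∉ {s | s ∈ Am α ∧ df (P α s) (((e (f α) : Al) : L) s) ≠ 0} →
      ((e (f α) : Al) : L) s = P α s := by
    intro α s hs hs2
    have h2 : df (P α s) (((e (f α) : Al) : L) s) = 0 := by
      by_contra hcon
      exact hs2 ⟨hs, hcon⟩
    exact eq_of_df (pf_idem _ _ _) (pf_star _ _ _) (hidem _ _) (hstar _ _) h2 (hnear α s)
  set E : T → Set S := fun α => {s | s ∈ Am α ∧ df (P α s) (((e (f α) : Al) : L) s) ≠ 0} with hEdef
  let C : T → Set T := fun α => (fun s : S => s.2.1) '' (E α) ∪ (fun s : S => s.1) '' (E α)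
  have hC : ∀ α, (C α).Countable := fun α => ((hE α).image _).union ((hE α).image _)
  obtain ⟨α, β, hαβ, hβ, hα⟩ := free_pair C hC
  obtain ⟨j, hj1, hj2⟩ := directed_of (· ≤ ·) (f α) (f β)
  -- the values at the points `(α, β, n)`
  have hv1 : ∀ n : ℕ, ((e (f α) : Al) : L) (α, β, n) = R 0 := by
    intro n
    rw [hEq α (α, β, n) (Or.inl rfl)]
    · exact P_left α _ rfl
    · intro h
      exact hβ (Or.inl ⟨_, h, rfl⟩)
  have hv2 : ∀ n : ℕ, ((e (f β) : Al) : L) (α, β, n) = R (tn n) := by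
    intro n
    rw [hEq β (α, β, n) (Or.inr rfl)]
    · exact P_right β _ hαβ rfl
    · intro h
      exact hα (Or.inr ⟨_, h, rfl⟩)
  obtain ⟨G, hG⟩ := fl_ev ((Metric.tendsto_nhds.1 ((e j).2.1 α)) 1 one_pos)
  have hn : ∃ n : ℕ, ((α, β, n) : S) ∉ G := by
    have hinf : (Set.range (fun n : ℕ => ((α, β, n) : S))).Infinite := by
      refine Set.infinite_range_of_injective fun m n h => ?_
      simpa using h
    obtain ⟨s, ⟨n, rfl⟩, hs⟩ := hinf.exists_notMem_finset G
    exact ⟨n, hs⟩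
  obtain ⟨n, hn⟩ := hn
  have h2 := hG (α, β, n) (Or.inl rfl) hn
  rw [Real.dist_eq, sub_zero, abs_of_nonneg (norm_nonneg _), P_left α _ rfl] at h2
  obtain ⟨x, hx⟩ : ∃ x, x = ((e j : Al) : L) (α, β, n) := ⟨_, rfl⟩
  rw [← hx] at h2
  have hx1 : R 0 * x = R 0 := by
    have h3 := hmul (e (f α)) (e j) (α, β, n)
    rw [hm _ _ hj1, hv1, ← hx] at h3
    exact h3.symm
  have hx2 : R (tn n) * x = R (tn n) := by
    have h3 := hmul (e (f β)) (e j) (α, β, n)
    rw [hm _ _ hj2, hv2, ← hx] at h3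
    exact h3.symm
  have hxx : x * x = x := by rw [hx]; exact hidem _ _
  have hxs : star x = x := by rw [hx]; exact hstar _ _
  have hx3 : x * R 0 = R 0 := by
    have h3 := congrArg star hx1
    rwa [star_mul, hxs, R_star] at h3
  have h4 : df (R 0) x = x - R 0 := by
    unfold df
    rw [hx1, R_idem]
  rw [h4] at h2
  have h5 : x - R 0 = 0 := by
    refine proj_eq_zero ?_ ?_ h2
    · rw [sub_mul, mul_sub, mul_sub, hxx, hx1, hx3, R_idem]
      abel
    · rw [star_sub, hxs, R_star]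
  rw [sub_eq_zero.1 h5] at hx2
  exact R_ne (tn_ne n) hx2

end Pool.Agent.Y74.IP
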